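import Pool.Agent.helper52.HY.Spec

set_option autoImplicit false

open Complex Metric Set Filter Topology MeasureTheory
open Pool.Agent.helper98.ILF Pool.Agent.helper16.Multibrot

noncomputable section

namespace HY

lemma HDI_mem {x : ℂ} : x ∈ UD ↔ ‖x‖ < 1 := by
  simp [UD]

lemma HDI_S_eq (a : ℂ) : S a = T (-a) := by
  funext x
  simp [S, T]

lemma HDI_one_sub_pos {x : ℂ} (hx : x ∈ UD) : 0 < 1 - ‖x‖ ^ 2 := by
  have h := HDI_mem.1 hx
  nlinarith [norm_nonneg x]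

lemma HDI_den {a x : ℂ} (ha : a ∈ UD) (hx : x ∈ UD) : 0 < ‖1 - (starRingEnd ℂ) a * x‖ := by
  have h1 := HDI_mem.1 ha
  have h2 := HDI_mem.1 hx
  have h3 : ‖(starRingEnd ℂ) a * x‖ < 1 := by
    rw [norm_mul, RCLike.norm_conj]
    nlinarith [norm_nonneg a, norm_nonneg x]
  have h4 := norm_sub_norm_le (1 : ℂ) ((starRingEnd ℂ) a * x)
  rw [norm_one] at h4
  linarith

lemma HDI_norm_one_sub {a : ℂ} (ha : a ∈ UD) : ‖(1 - (‖a‖ : ℂ) ^ 2)‖ = 1 - ‖a‖ ^ 2 := by
  have h : (1 - (‖a‖ : ℂ) ^ 2) = ((1 - ‖a‖ ^ 2 : ℝ) : ℂ) := by push_cast; ring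
  rw [h, Complex.norm_real, Real.norm_eq_abs, abs_of_pos (HDI_one_sub_pos ha)]

lemma HDI_T (hMOB : MOB_stmt) (a : ℂ) (H : ℂ → ℂ) (x : ℂ) (ha : a ∈ UD) (hH : DifferentiableAt ℂ H x)
    (hx : H x ∈ UD) : hd (fun z => T a (H z)) x = hd H x := by
  obtain ⟨hmem, -, -, hdT, -, -, -, hnorm, -, hder, -, -⟩ := hMOB a ha
  have hTd : DifferentiableAt ℂ (T a) (H x) := (hdT (H x) hx).differentiableAt (isOpen_ball.mem_nhds hx)
  have h1 : deriv (fun z => T a (H z)) x = deriv (T a) (H x) * deriv H x := by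
    have := (hTd.hasDerivAt.comp x hH.hasDerivAt).deriv
    exact this
  have hp := HDI_den ha hx
  have hpa := HDI_one_sub_pos ha
  have hpx := HDI_one_sub_pos hx
  unfold hd
  rw [h1, hder (H x) hx, hnorm (H x) hx, norm_mul, norm_div, norm_pow, HDI_norm_one_sub ha]
  field_simp

lemma HDI_S (hMOB : MOB_stmt) (a : ℂ) (H : ℂ → ℂ) (x : ℂ) (ha : a ∈ UD) (hH : DifferentiableAt ℂ H x)
    (hx : H x ∈ UD) : hd (fun z => S a (H z)) x = hd H x := by
  rw [HDI_S_eq]
  exact HDI_T hMOB (-a) H x (by rw [HDI_mem, norm_neg]; exact HDI_mem.1 ha) hH hx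

theorem HDI (hMOB : MOB_stmt) : HDI_stmt := by
  refine ⟨fun a H x ha hH hx => ⟨HDI_T hMOB a H x ha hH hx, HDI_S hMOB a H x ha hH hx⟩, ?_, ?_⟩
  · intro J X x hJ hJm hX hu
    have hJu : J (X x) ∈ UD := hJm hu
    obtain ⟨hmem, -, hS0, -, hdS, -, -, -, -, -, hderS, -⟩ := hMOB (X x) hu
    obtain ⟨hmem', hT0, -, hdT, -, -, -, -, -, hderT, -, -⟩ := hMOB (J (X x)) hJu
    have h0 : (0 : ℂ) ∈ UD := by rw [HDI_mem]; simp
    have hSm : MapsTo (S (X x)) UD UD := fun z hz => (hmem z hz).2.1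
    have hTm : MapsTo (T (J (X x))) UD UD := fun z hz => (hmem' z hz).1
    have hG : DifferentiableOn ℂ (fun z => T (J (X x)) (J (S (X x) z))) UD :=
      hdT.comp (hJ.comp hdS hSm) (hJm.comp hSm)
    have hGm : MapsTo (fun z => T (J (X x)) (J (S (X x) z))) UD UD := hTm.comp (hJm.comp hSm)
    have hG0 : (fun z => T (J (X x)) (J (S (X x) z))) 0 = 0 := by
      change T (J (X x)) (J (S (X x) 0)) = 0
      rw [hS0, hT0]
    have hle : ‖deriv (fun z => T (J (X x)) (J (S (X x) z))) 0‖ ≤ 1 := by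
      have hGm' : MapsTo (fun z => T (J (X x)) (J (S (X x) z))) (ball 0 1)
          (closedBall ((fun z => T (J (X x)) (J (S (X x) z))) 0) 1) := by
        rw [hG0]
        intro z hz
        exact ball_subset_closedBall (hGm hz)
      exact Complex.norm_deriv_le_one_of_mapsTo_ball (R := 1) hG hGm' one_pos
    have hJd : DifferentiableAt ℂ J (X x) := (hJ _ hu).differentiableAt (isOpen_ball.mem_nhds hu)
    have hSd : DifferentiableAt ℂ (S (X x)) 0 := (hdS 0 h0).differentiableAt (isOpen_ball.mem_nhds h0)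
    have hTd : DifferentiableAt ℂ (T (J (X x))) (J (X x)) :=
      (hdT _ hJu).differentiableAt (isOpen_ball.mem_nhds hJu)
    have hchain : deriv (fun z => T (J (X x)) (J (S (X x) z))) 0
        = deriv (T (J (X x))) (J (X x)) * (deriv J (X x) * deriv (S (X x)) 0) := by
      have e1 : HasDerivAt (S (X x)) (deriv (S (X x)) 0) 0 := hSd.hasDerivAt
      have e2 : HasDerivAt J (deriv J (X x)) (S (X x) 0) := by rw [hS0]; exact hJd.hasDerivAt
      have e3 : HasDerivAt (T (J (X x))) (deriv (T (J (X x))) (J (X x))) (J (S (X x) 0)) := by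
        rw [hS0]; exact hTd.hasDerivAt
      exact (e3.comp 0 (e2.comp 0 e1)).deriv
    rw [hchain, hderT _ hJu, hderS] at hle
    have hpu := HDI_one_sub_pos hu
    have hpJ := HDI_one_sub_pos hJu
    have hden : 1 - (starRingEnd ℂ) (J (X x)) * J (X x) = (1 - (‖J (X x)‖ : ℂ) ^ 2) := by
      rw [Complex.conj_mul']
    rw [hden, norm_mul, norm_mul, norm_div, norm_pow, HDI_norm_one_sub hu, HDI_norm_one_sub hJu] at hle
    have h1 : deriv (fun z => J (X z)) x = deriv J (X x) * deriv X x :=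
      (hJd.hasDerivAt.comp x hX.hasDerivAt).deriv
    have hle2 : ‖deriv J (X x)‖ * (1 - ‖X x‖ ^ 2) ≤ 1 - ‖J (X x)‖ ^ 2 := by
      have e : (1 - ‖J (X x)‖ ^ 2) / (1 - ‖J (X x)‖ ^ 2) ^ 2 * (‖deriv J (X x)‖ * (1 - ‖X x‖ ^ 2))
          = (‖deriv J (X x)‖ * (1 - ‖X x‖ ^ 2)) / (1 - ‖J (X x)‖ ^ 2) := by
        field_simp
      rw [e, div_le_one hpJ] at hle
      exact hle
    unfold hd
    rw [h1, norm_mul, div_le_div_iff₀ hpJ hpu]
    calc ‖deriv J (X x)‖ * ‖deriv X x‖ * (1 - ‖X x‖ ^ 2)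
        = (‖deriv J (X x)‖ * (1 - ‖X x‖ ^ 2)) * ‖deriv X x‖ := by ring
      _ ≤ (1 - ‖J (X x)‖ ^ 2) * ‖deriv X x‖ := mul_le_mul_of_nonneg_right hle2 (norm_nonneg _)
      _ = ‖deriv X x‖ * (1 - ‖J (X x)‖ ^ 2) := by ring
  · intro y hy
    obtain ⟨hmem, -, hS0, -, hdS, -, hSi, -, -, -, -, -⟩ := hMOB y hy
    have h16 : ∀ x ∈ UD, x / 16 ∈ UD := by
      intro x hx
      rw [HDI_mem] at hx ⊢
      rw [norm_div]
      have : ‖(16 : ℂ)‖ = 16 := by norm_num
      rw [this]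
      linarith [norm_nonneg x]
    have hm16 : MapsTo (fun x : ℂ => x / 16) UD UD := fun x hx => h16 x hx
    have hd16 : ∀ x : ℂ, HasDerivAt (fun x : ℂ => x / 16) (1 / 16) x := fun x =>
      (hasDerivAt_id x).div_const 16
    have hhd : ∀ x ∈ UD, hd (fun x => S y (x / 16)) x = (1 / 16) / (1 - (‖x‖ / 16) ^ 2) := by
      intro x hx
      rw [HDI_S hMOB y (fun x => x / 16) x hy (hd16 x).differentiableAt (h16 x hx)]
      unfold hd
      rw [(hd16 x).deriv]
      have e1 : ‖(1 / 16 : ℂ)‖ = 1 / 16 := by norm_num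
      have e2 : ‖x / 16‖ = ‖x‖ / 16 := by
        rw [norm_div]
        norm_num
      rw [e1]
      simp only [e2]
    have h0 : (0 : ℂ) ∈ UD := by rw [HDI_mem]; simp
    refine ⟨⟨?_, ?_, ?_⟩, ?_, ?_, ?_⟩
    · exact hdS.comp (fun x _ => (hd16 x).differentiableAt.differentiableWithinAt) hm16
    · intro u hu v hv huv
      have := hSi (h16 u hu) (h16 v hv) huv
      field_simp at this
      exact this
    · intro x hx
      exact (hmem _ (h16 x hx)).2.1
    · rw [zero_div]; exact hS0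
    · rw [hhd 0 h0]; norm_num
    · intro x hx
      rw [hhd x hx]
      have hx1 := HDI_mem.1 hx
      have hx0 := norm_nonneg x
      have hb : (‖x‖ / 16) ^ 2 ≤ 1 / 256 := by
        have : ‖x‖ / 16 ≤ 1 / 16 := by linarith
        have h0' : 0 ≤ ‖x‖ / 16 := by positivity
        nlinarith
      rw [div_le_iff₀ (by linarith)]
      linarith

end HY
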