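import Pool.Agent.helper52.HY.Spec

set_option autoImplicit false

open Complex Metric Set Filter Topology MeasureTheory
open Pool.Agent.helper98.ILF Pool.Agent.helper16.Multibrot

noncomputable section

namespace HY

lemma SGE_zero (n : ℕ) (c : ℂ) : RM (VV n c 0) 0 (fun x => 4 * x) where
  dif := by fun_prop
  inj := by
    intro x _ y _ h
    have h' : (4 : ℂ) * x = 4 * y := h
    exact mul_left_cancel₀ (by norm_num) h'
  img := by
    ext z
    constructor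
    · rintro ⟨x, hx, rfl⟩
      have hx' : ‖x‖ < 1 := by simpa [UD] using hx
      change ‖(4 : ℂ) * x‖ < 4
      rw [norm_mul]
      have : ‖(4 : ℂ)‖ = 4 := by norm_num
      rw [this]
      linarith
    · intro hz
      have hz' : ‖z‖ < 4 := hz
      refine ⟨z / 4, ?_, ?_⟩
      · rw [UD, mem_ball, dist_zero_right, norm_div]
        have : ‖(4 : ℂ)‖ = 4 := by norm_num
        rw [this]
        linarith
      · change (4 : ℂ) * (z / 4) = z
        ring
  val := by simp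

theorem SGE (hRMI : RMI_stmt) (hRMC : RMC_stmt) (hVKB : VKB_stmt) : SGE_stmt := by
  intro n c hn hc
  obtain ⟨-, h0f, hcf, -, -, -, -, hsub, hpre, hfil, -, -⟩ := hVKB n c hn hc
  have key : ∀ (k : ℕ) (φ : ℂ → ℂ), RM (VV n c k) 0 φ → ∃ (ψ : ℂ → ℂ) (b : ℂ), SG n c (VV n c k) φ ψ b := by
    intro k φ hφ
    obtain ⟨b, hb, hbc, hrm⟩ := hRMC _ 0 c φ hφ (hfil k hcf)
    obtain ⟨ψ, hψ, hrel⟩ := hRMI n c _ _ hn hrm
    refine ⟨ψ, b, ⟨hn, hφ, hψ, ?_, hb, hbc, hrel⟩⟩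
    rw [← hpre k]
    exact hsub k
  have hex : ∀ k : ℕ, ∃ φ : ℂ → ℂ, RM (VV n c k) 0 φ := by
    intro k
    induction k with
    | zero => exact ⟨_, SGE_zero n c⟩
    | succ k ih =>
      obtain ⟨φ, hφ⟩ := ih
      obtain ⟨ψ, b, hsg⟩ := key k φ hφ
      exact ⟨ψ, by rw [hpre k]; exact hsg.rmu⟩
  intro k
  obtain ⟨φ, hφ⟩ := hex k
  obtain ⟨ψ, b, hsg⟩ := key k φ hφ
  exact ⟨φ, ψ, b, hsg⟩

end HY
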