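import Pool.Agent.helper52.HY.SpecU

set_option autoImplicit false

open Complex Metric Set Filter Topology MeasureTheory
open Pool.Agent.helper98.ILF Pool.Agent.helper16.Multibrot

noncomputable section

namespace HY

theorem CYC (hCYU : CYU_stmt) (hMCL : MCL_stmt) : CYC_stmt := by
  intro n c hn hc ε hε h
  by_contra hcl
  obtain ⟨-, hr⟩ := hMCL n hn
  obtain ⟨r, hr0, hdis⟩ := (hr 0).2.2 c hcl
  obtain ⟨θ, hθ, hcyc⟩ := hCYU n hn r hr0 ε hε
  obtain ⟨k, z, hk, hz, hfar, hlt⟩ := h θ hθ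
  exact absurd (hcyc c hc hdis k z hk hz hfar) (not_le.2 hlt)

end HY
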