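import Pool.Agent.helper52.HY.SpecU

set_option autoImplicit false

open Complex Metric Set Filter Topology MeasureTheory
open Pool.Agent.helper98.ILF Pool.Agent.helper16.Multibrot

noncomputable section

namespace HY

lemma DPH_mem {x : ℂ} : x ∈ UD ↔ ‖x‖ < 1 := by
  simp [UD]

lemma DPH_inv (hKO0 : V3.KO0_stmt) {φ g : ℂ → ℂ} (hd : DifferentiableOn ℂ φ UD) (hi : InjOn φ UD)
    (hg : ∀ x ∈ UD, g (φ x) = x) {x : ℂ} (hx : x ∈ UD) :
    HasDerivAt g (deriv φ x)⁻¹ (φ x) := by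
  have hop : IsOpen UD := isOpen_ball
  have hne : deriv φ x ≠ 0 := hKO0 φ UD hop hd hi x hx
  have han : AnalyticAt ℂ φ x := hd.analyticAt (hop.mem_nhds hx)
  have hst : HasStrictDerivAt φ (deriv φ x) x := han.hasStrictDerivAt
  have hmap : map φ (𝓝 x) = 𝓝 (φ x) := hst.map_nhds_eq hne
  have hcont : ContinuousAt g (φ x) := by
    rw [ContinuousAt, ← hmap, tendsto_map'_iff]
    have he : ∀ᶠ z in 𝓝 x, (g ∘ φ) z = z := by
      filter_upwards [hop.mem_nhds hx] with z hz using hg z hz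
    rw [hg x hx]
    exact Tendsto.congr' (EventuallyEq.symm he) tendsto_id
  have hev : ∀ᶠ w in 𝓝 (φ x), φ (g w) = w := by
    rw [← hmap, eventually_map]
    filter_upwards [hop.mem_nhds hx] with z hz
    rw [hg z hz]
  have hdx : HasDerivAt φ (deriv φ x) (g (φ x)) := by
    rw [hg x hx]
    exact han.differentiableAt.hasDerivAt
  exact HasDerivAt.of_local_left_inverse hcont hdx hne hev

theorem DPH (hMOB : MOB_stmt) (hKO0 : V3.KO0_stmt) : DPH_stmt := by
  intro V a φ hRM y hy d hd hball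
  obtain ⟨hmem, hT0, -, hdT, -, -, -, -, -, hderT, -, -⟩ := hMOB y hy
  have hop : IsOpen UD := isOpen_ball
  set g : ℂ → ℂ := Function.invFunOn φ UD with hg
  have hgl : ∀ x ∈ UD, g (φ x) = x := fun x hx => hRM.inj.leftInvOn_invFunOn hx
  have hgm : ∀ w ∈ V, g w ∈ UD ∧ φ (g w) = w := by
    intro w hw
    rw [← hRM.img] at hw
    exact ⟨Function.invFunOn_mem hw, Function.invFunOn_eq hw⟩
  have hgd : ∀ w ∈ V, HasDerivAt g (deriv φ (g w))⁻¹ w := by
    intro w hw
    have := DPH_inv hKO0 hRM.dif hRM.inj hgl (hgm w hw).1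
    rwa [(hgm w hw).2] at this
  have hlin : ∀ u ∈ UD, φ y + d * u ∈ V := by
    intro u hu
    apply hball
    rw [mem_ball, dist_eq_norm, add_sub_cancel_left, norm_mul, Complex.norm_real, Real.norm_eq_abs,
      abs_of_pos hd]
    have := DPH_mem.1 hu
    nlinarith
  have hlind : ∀ u : ℂ, HasDerivAt (fun u : ℂ => φ y + d * u) (d : ℂ) u := by
    intro u
    have h1 : HasDerivAt (fun u : ℂ => (d : ℂ) * u) ((d : ℂ) * 1) u := (hasDerivAt_id u).const_mul _
    rw [mul_one] at h1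
    exact h1.const_add _
  set G : ℂ → ℂ := fun u => T y (g (φ y + d * u)) with hG
  have hGd : DifferentiableOn ℂ G UD := by
    intro u hu
    have h1 := (hlind u)
    have h2 := hgd _ (hlin u hu)
    have h3 : DifferentiableAt ℂ (T y) (g (φ y + d * u)) :=
      (hdT _ (hgm _ (hlin u hu)).1).differentiableAt (hop.mem_nhds (hgm _ (hlin u hu)).1)
    exact (h3.hasDerivAt.comp u (h2.comp u h1)).differentiableAt.differentiableWithinAt
  have hGm : MapsTo G UD UD := fun u hu => (hmem _ (hgm _ (hlin u hu)).1).1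
  have hg0 : g (φ y + d * 0) = y := by
    rw [mul_zero, add_zero]
    exact hgl y hy
  have hG0 : G 0 = 0 := by
    change T y (g (φ y + d * 0)) = 0
    rw [hg0, hT0]
  have h0 : (0 : ℂ) ∈ UD := by rw [DPH_mem]; simp
  have hle : ‖deriv G 0‖ ≤ 1 := by
    have hGm' : MapsTo G (ball 0 1) (closedBall (G 0) 1) := by
      rw [hG0]
      intro z hz
      exact ball_subset_closedBall (hGm hz)
    exact Complex.norm_deriv_le_one_of_mapsTo_ball (R := 1) hGd hGm' one_pos
  have hden : HasDerivAt G (deriv (T y) y * ((deriv φ y)⁻¹ * d)) 0 := by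
    have h1 := (hlind 0)
    have h2 : HasDerivAt g (deriv φ y)⁻¹ (φ y + d * 0) := by
      have := hgd _ (hlin 0 h0)
      rwa [hg0] at this
    have h3 : HasDerivAt (T y) (deriv (T y) y) (g (φ y + d * 0)) := by
      rw [hg0]
      exact ((hdT y hy).differentiableAt (hop.mem_nhds hy)).hasDerivAt
    exact h3.comp 0 (h2.comp 0 h1)
  rw [hden.deriv, hderT y hy] at hle
  have hy1 := DPH_mem.1 hy
  have hpy : 0 < 1 - ‖y‖ ^ 2 := by nlinarith [norm_nonneg y]
  have hconj : 1 - (starRingEnd ℂ) y * y = ((1 - ‖y‖ ^ 2 : ℝ) : ℂ) := by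
    rw [Complex.conj_mul']
    push_cast
    ring
  have hnum : (1 - (‖y‖ : ℂ) ^ 2) = ((1 - ‖y‖ ^ 2 : ℝ) : ℂ) := by
    push_cast
    ring
  have hne : deriv φ y ≠ 0 := hKO0 φ UD hop hRM.dif hRM.inj y hy
  have hnp : 0 < ‖deriv φ y‖ := norm_pos_iff.2 hne
  rw [hconj, hnum, norm_mul, norm_mul, norm_div, norm_pow, norm_inv, Complex.norm_real, Complex.norm_real,
    Real.norm_eq_abs, Real.norm_eq_abs, abs_of_pos hpy, abs_of_pos hd] at hle
  have e : (1 - ‖y‖ ^ 2) / (1 - ‖y‖ ^ 2) ^ 2 * (‖deriv φ y‖⁻¹ * d) = d / (‖deriv φ y‖ * (1 - ‖y‖ ^ 2)) := by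
    field_simp
  rw [e, div_le_one (by positivity)] at hle
  exact hle

end HY
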